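import Mathlib

/-!
# Roots outside the unit disc

If all roots of a complex polynomial `P` of degree `n` lie in the closed unit disc, then
`Re (z P'(z) / P(z)) ≥ n / 2` on the unit circle. Consequently `X ^ m * A + B` has a root outside the
closed unit disc for all large `m` if `0 < |A(z)| < |B(z)|` at some point `z` of the unit circle.
-/

set_option autoImplicit false

open Polynomial ComplexConjugate

namespace Pool.Agent.KS6_20.SZ

lemma half_le_re {z α : ℂ} (hz : ‖z‖ = 1) (hα : ‖α‖ ≤ 1) (h : z ≠ α) :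
    (1 : ℝ) / 2 ≤ (z * (1 / (z - α))).re := by
  have h0 : z - α ≠ 0 := sub_ne_zero.2 h
  have h1 : 0 < Complex.normSq (z - α) := Complex.normSq_pos.2 h0
  have e1 : (z * (1 / (z - α))).re = (z.re * (z.re - α.re) + z.im * (z.im - α.im)) /
      Complex.normSq (z - α) := by
    rw [mul_one_div, Complex.div_re]
    simp only [Complex.sub_re, Complex.sub_im]
    ring
  rw [e1, div_le_div_iff₀ (by norm_num) h1]
  have h2 : z.re * z.re + z.im * z.im = 1 := by
    rw [← Complex.normSq_apply, Complex.normSq_eq_norm_sq, hz]; norm_num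
  have h3 : α.re * α.re + α.im * α.im ≤ 1 := by
    rw [← Complex.normSq_apply, Complex.normSq_eq_norm_sq]
    exact pow_le_one₀ (norm_nonneg _) hα
  rw [Complex.normSq_apply, Complex.sub_re, Complex.sub_im]
  nlinarith

lemma half_degree_le {P : ℂ[X]} (hP : ∀ α, P.eval α = 0 → ‖α‖ ≤ 1) {z : ℂ} (hz : ‖z‖ = 1)
    (h : P.eval z ≠ 0) : (P.natDegree : ℝ) / 2 ≤ (z * (P.derivative.eval z / P.eval z)).re := by
  have hs := IsAlgClosed.splits P
  rw [hs.eval_derivative_div_eval_of_ne_zero h, ← Multiset.sum_map_mul_left]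
  have e1 : ((P.roots.map fun α => z * (1 / (z - α))).sum).re =
      (P.roots.map fun α => (z * (1 / (z - α))).re).sum := by
    have := map_multiset_sum Complex.reAddGroupHom (P.roots.map fun α => z * (1 / (z - α)))
    rw [Multiset.map_map] at this
    exact this
  rw [e1, hs.natDegree_eq_card_roots]
  have h2 : (P.roots.map fun α => (z * (1 / (z - α))).re).card • ((1 : ℝ) / 2) ≤
      (P.roots.map fun α => (z * (1 / (z - α))).re).sum := by
    refine Multiset.card_nsmul_le_sum fun x hx => ?_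
    obtain ⟨α, hα, rfl⟩ := Multiset.mem_map.1 hx
    have hroot : P.eval α = 0 := (mem_roots'.1 hα).2
    refine half_le_re hz (hP α hroot) ?_
    rintro rfl
    exact h hroot
  rw [Multiset.card_map, nsmul_eq_mul] at h2
  linarith

/-- the real part of `u / (u + b)` if `|u| < |b|` -/
lemma re_div_le {u b : ℂ} (h : ‖u‖ < ‖b‖) :
    (u / (u + b)).re ≤ 1 / 2 - (‖b‖ - ‖u‖) / (2 * (‖u‖ + ‖b‖)) := by
  have hne : u + b ≠ 0 := by
    intro h0
    have : u = -b := by linear_combination h0
    rw [this, norm_neg] at h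
    exact lt_irrefl _ h
  have hu := norm_nonneg u
  have hs : 0 < ‖u‖ + ‖b‖ := by linarith
  have h1 : 0 < Complex.normSq (u + b) := Complex.normSq_pos.2 hne
  have h2 : Complex.normSq (u + b) ≤ (‖u‖ + ‖b‖) ^ 2 := by
    rw [Complex.normSq_eq_norm_sq]
    exact pow_le_pow_left₀ (norm_nonneg _) (norm_add_le _ _) 2
  have hu2 : u.re * u.re + u.im * u.im = ‖u‖ ^ 2 := by
    rw [← Complex.normSq_apply, Complex.normSq_eq_norm_sq]
  have hb2 : b.re * b.re + b.im * b.im = ‖b‖ ^ 2 := by
    rw [← Complex.normSq_apply, Complex.normSq_eq_norm_sq]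
  have e1 : (u / (u + b)).re = 1 / 2 - (‖b‖ ^ 2 - ‖u‖ ^ 2) / (2 * Complex.normSq (u + b)) := by
    have e3 : (u / (u + b)).re = (u.re * (u.re + b.re) + u.im * (u.im + b.im)) /
        Complex.normSq (u + b) := by
      rw [Complex.div_re]
      simp only [Complex.add_re, Complex.add_im]
      ring
    have e4 : Complex.normSq (u + b) = ‖u‖ ^ 2 + ‖b‖ ^ 2 + 2 * (u.re * b.re + u.im * b.im) := by
      rw [← hu2, ← hb2, Complex.normSq_apply, Complex.add_re, Complex.add_im]
      ring
    rw [e3]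
    have h5 : Complex.normSq (u + b) ≠ 0 := h1.ne'
    field_simp
    rw [e4]
    linear_combination 2 * hu2
  have e2 : (‖b‖ - ‖u‖) / (2 * (‖u‖ + ‖b‖)) = (‖b‖ ^ 2 - ‖u‖ ^ 2) / (2 * (‖u‖ + ‖b‖) ^ 2) := by
    field_simp
    ring
  rw [e1, e2]
  have h3 : (‖b‖ ^ 2 - ‖u‖ ^ 2) / (2 * (‖u‖ + ‖b‖) ^ 2) ≤
      (‖b‖ ^ 2 - ‖u‖ ^ 2) / (2 * Complex.normSq (u + b)) := by
    refine div_le_div_of_nonneg_left ?_ (by positivity) (by linarith)
    nlinarith
  linarith

/-- a root outside the closed unit disc -/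
lemma exists_outside (A B : ℂ[X]) (k : ℕ) {z : ℂ} (hz : ‖z‖ = 1) (h : ‖A.eval z‖ < ‖B.eval z‖) :
    ∃ m0 : ℕ, ∀ m ≥ m0, (X ^ m * A + B).natDegree = m + k →
      ∃ α : ℂ, (X ^ m * A + B).eval α = 0 ∧ 1 < ‖α‖ := by
  set a := A.eval z with ha
  set b := B.eval z with hb
  set η := ‖b‖ - ‖a‖ with hη
  have hη0 : 0 < η := by linarith
  have hs0 : 0 < ‖a‖ + ‖b‖ := by linarith [norm_nonneg a]
  set κ := (‖b‖ - ‖a‖) / (2 * (‖a‖ + ‖b‖)) with hκ
  have hκ0 : 0 < κ := by positivity
  set K := (‖A.derivative.eval z‖ + ‖B.derivative.eval z‖) / η with hK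
  obtain ⟨m0, hm0⟩ := exists_nat_gt (K / κ)
  refine ⟨m0, fun m hm hdeg => ?_⟩
  by_contra hcon
  push Not at hcon
  set P := X ^ m * A + B with hP
  have hzm : ‖z ^ m‖ = 1 := by rw [norm_pow, hz, one_pow]
  have hu : ‖z ^ m * a‖ = ‖a‖ := by rw [norm_mul, hzm, one_mul]
  have hPz : P.eval z = z ^ m * a + b := by
    rw [hP, eval_add, eval_mul, eval_pow, eval_X]
  have hPn : η ≤ ‖P.eval z‖ := by
    rw [hPz]
    have := norm_sub_norm_le b (-(z ^ m * a))
    rw [norm_neg, hu, sub_neg_eq_add, add_comm b] at this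
    exact this
  have hPne : P.eval z ≠ 0 := by
    intro h0
    rw [h0, norm_zero] at hPn
    linarith
  have h1 := half_degree_le hcon hz hPne
  have hPd : z * P.derivative.eval z = m * (z ^ m * a) +
      (z ^ (m + 1) * A.derivative.eval z + z * B.derivative.eval z) := by
    rw [hP, derivative_add, derivative_mul, derivative_X_pow]
    simp only [eval_add, eval_mul, eval_pow, eval_X, eval_C]
    rcases m with _ | m
    · simp; ring
    · simp only [Nat.add_sub_cancel]
      rw [← ha]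
      push_cast
      ring
  have h2 : z * (P.derivative.eval z / P.eval z) = m * ((z ^ m * a) / (z ^ m * a + b)) +
      (z ^ (m + 1) * A.derivative.eval z + z * B.derivative.eval z) / P.eval z := by
    rw [mul_div_assoc', hPd, add_div, hPz, mul_div_assoc]
  have h3 := re_div_le (u := z ^ m * a) (b := b) (by rw [hu]; exact h)
  rw [hu] at h3
  have h4 : ((z ^ (m + 1) * A.derivative.eval z + z * B.derivative.eval z) / P.eval z).re ≤ K := by
    refine (Complex.re_le_norm _).trans ?_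
    rw [norm_div]
    refine div_le_div₀ (by positivity) ?_ hη0 hPn
    refine (norm_add_le _ _).trans ?_
    rw [norm_mul, norm_mul, norm_pow, hz, one_pow, one_mul, one_mul]
  rw [h2, Complex.add_re, hdeg] at h1
  have h5 : ((m : ℂ) * ((z ^ m * a) / (z ^ m * a + b))).re =
      m * ((z ^ m * a) / (z ^ m * a + b)).re := by
    rw [← Complex.ofReal_natCast, Complex.re_ofReal_mul]
  rw [h5] at h1
  have h6 : (m : ℝ) * ((z ^ m * a) / (z ^ m * a + b)).re ≤ m * (1 / 2 - κ) :=
    mul_le_mul_of_nonneg_left h3 (Nat.cast_nonneg _)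
  push_cast at h1
  have h7 : (m0 : ℝ) ≤ m := by exact_mod_cast hm
  have h8 : K < κ * m0 := by
    rw [div_lt_iff₀ hκ0] at hm0
    linarith
  have h9 : κ * m0 ≤ κ * m := mul_le_mul_of_nonneg_left h7 hκ0.le
  have h10 : (0 : ℝ) ≤ k := Nat.cast_nonneg _
  nlinarith

end Pool.Agent.KS6_20.SZ
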