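import Pool.Agent.KS6_20.SZ.Core
import Pool.Agent.KS6_20.SZ.Outside

/-!
# Integer polynomials with leading coefficient `q` and roots extremely close to the unit disc
-/

set_option autoImplicit false

open Polynomial ComplexConjugate Metric

namespace Pool.Agent.KS6_20.SZ

lemma lower {c y : ℝ} (hc : 0 < c) (hy : 0 ≤ y) (r : ℕ) : -(1 / c ^ r) ≤ y ^ r * (c * y - 1) := by
  rcases le_total 1 (c * y) with h | h
  · have h1 : 0 ≤ y ^ r * (c * y - 1) := mul_nonneg (pow_nonneg hy r) (by linarith)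
    have h2 : 0 ≤ 1 / c ^ r := by positivity
    linarith
  · have h1 : y ^ r ≤ 1 / c ^ r := by
      rw [← one_div_pow]
      refine pow_le_pow_left₀ hy ?_ r
      rw [le_div_iff₀ hc]
      linarith
    have h2 : 0 ≤ y ^ r := pow_nonneg hy r
    have h3 : 0 ≤ c * y := by positivity
    nlinarith

section est

variable {e c : ℤ} {r : ℕ} (he : 1 ≤ e) (hc : 2 ≤ c) (hr : 1 ≤ r)

include hc hr in
lemma delta_le : 1 / (c : ℝ) ^ r ≤ 1 / 2 := by
  have hc' : (2 : ℝ) ≤ c := by exact_mod_cast hc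
  have h1 : (2 : ℝ) ^ 1 ≤ (c : ℝ) ^ r :=
    calc (2 : ℝ) ^ 1 ≤ 2 ^ r := pow_le_pow_right₀ (by norm_num) hr
      _ ≤ (c : ℝ) ^ r := pow_le_pow_left₀ (by norm_num) hc' r
  exact one_div_le_one_div_of_le (by norm_num) (by linarith)

include he hc hr in
lemma re_circle {w : ℂ} (hw : ‖w‖ = 1) : (e : ℝ) / 2 ≤ (aeval w (h e c r)).re := by
  have h1 := two_re_h e c hr hw
  have hc' : (0 : ℝ) < c := by
    have : (2 : ℝ) ≤ c := by exact_mod_cast hc
    linarith
  have h2 := lower hc' (sq_nonneg ‖1 - w‖) r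
  have h3 := delta_le hc hr
  have he' : (1 : ℝ) ≤ e := by exact_mod_cast he
  linarith

include he hc hr in
lemma re_disc {w : ℂ} (hw : ‖w‖ ≤ 1) : (e : ℝ) / 2 ≤ (aeval w (h e c r)).re := by
  have hd : DiffContOnCl ℂ (fun w : ℂ => Complex.exp (-(aeval w (h e c r)))) (ball 0 1) := by
    refine Differentiable.diffContOnCl ?_
    have : Differentiable ℂ fun w : ℂ => aeval w (h e c r) := Polynomial.differentiable_aeval _
    fun_prop
  have h1 := Complex.norm_le_of_forall_mem_frontier_norm_le (isBounded_ball) hd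
    (C := Real.exp (-(e / 2 : ℝ))) (fun z hz => ?_) (z := w) ?_
  · rw [Complex.norm_exp, Complex.neg_re] at h1
    have := Real.exp_le_exp.1 h1
    linarith
  · rw [frontier_ball _ one_ne_zero, mem_sphere_zero_iff_norm] at hz
    rw [Complex.norm_exp, Complex.neg_re]
    refine Real.exp_le_exp.2 ?_
    have := re_circle he hc hr hz
    linarith
  · rw [closure_ball _ one_ne_zero, mem_closedBall_zero_iff]
    exact hw

include he hc hr in
lemma norm_disc {w : ℂ} (hw : ‖w‖ ≤ 1) : (e : ℝ) / 2 ≤ ‖aeval w (h e c r)‖ :=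
  (re_disc he hc hr hw).trans (Complex.re_le_norm _)

include he hc hr in
lemma ne_zero_disc {w : ℂ} (hw : ‖w‖ ≤ 1) : aeval w (h e c r) ≠ 0 := by
  have h1 := norm_disc he hc hr hw
  have he' : (1 : ℝ) ≤ e := by exact_mod_cast he
  intro h0
  rw [h0, norm_zero] at h1
  linarith

/-- the second polynomial -/
noncomputable def b (e c : ℤ) (r : ℕ) : ℤ[X] := h e c r - C (2 * e)

lemma natDegree_b (e c : ℤ) (r : ℕ) : (b e c r).natDegree ≤ r + 1 := by
  unfold b
  refine (natDegree_sub_le _ _).trans (max_le (natDegree_h e c r) ?_)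
  rw [natDegree_C]; exact Nat.zero_le _

include hr in
lemma sq_b {w : ℂ} (hw : ‖w‖ = 1) : ‖aeval w (b e c r)‖ ^ 2 =
    ‖aeval w (h e c r)‖ ^ 2 - 2 * e * ((‖1 - w‖ ^ 2) ^ r * (c * ‖1 - w‖ ^ 2 - 1)) := by
  have h1 := two_re_h e c hr hw
  have h2 : aeval w (b e c r) = aeval w (h e c r) - (2 * e : ℝ) := by
    unfold b
    rw [map_sub, aeval_C]
    push_cast
    rfl
  rw [h2, Complex.sq_norm, Complex.sq_norm, Complex.normSq_apply, Complex.normSq_apply,
    Complex.sub_re, Complex.sub_im, Complex.ofReal_re, Complex.ofReal_im]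
  linear_combination -(2 * (e : ℝ)) * h1

include he hc hr in
lemma b_le {w : ℂ} (hw : ‖w‖ = 1) :
    ‖aeval w (b e c r)‖ ≤ (1 + 4 / (c : ℝ) ^ r) * ‖aeval w (h e c r)‖ := by
  have h1 := sq_b (e := e) (c := c) hr hw
  have hc' : (0 : ℝ) < c := by
    have : (2 : ℝ) ≤ c := by exact_mod_cast hc
    linarith
  have h2 := lower hc' (sq_nonneg ‖1 - w‖) r
  have he' : (1 : ℝ) ≤ e := by exact_mod_cast he
  have h3 := norm_disc he hc hr hw.le
  obtain ⟨δ, hδ⟩ : ∃ δ : ℝ, δ = 1 / (c : ℝ) ^ r := ⟨_, rfl⟩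
  have hδ0 : 0 < δ := by rw [hδ]; positivity
  have e4 : 4 / (c : ℝ) ^ r = 4 * δ := by rw [hδ]; ring
  rw [e4]
  rw [← hδ] at h2
  refine le_of_sq_le_sq ?_ (by positivity)
  rw [h1, mul_pow]
  have h4 : (e : ℝ) ≤ 4 * ‖aeval w (h e c r)‖ ^ 2 := by nlinarith
  have h5 : (‖aeval w (h e c r)‖) ^ 2 - 2 * e * ((‖1 - w‖ ^ 2) ^ r * (c * ‖1 - w‖ ^ 2 - 1)) ≤
      ‖aeval w (h e c r)‖ ^ 2 + 2 * e * δ := by nlinarith
  have h6 : 2 * e * δ ≤ 8 * δ * ‖aeval w (h e c r)‖ ^ 2 := by nlinarith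
  have h7 : 0 ≤ (4 * δ) ^ 2 * ‖aeval w (h e c r)‖ ^ 2 := by positivity
  nlinarith

end est

lemma aeval_reflect {N : ℕ} {p : ℤ[X]} (hp : p.natDegree ≤ N) {w : ℂ} (hw : w ≠ 0) :
    aeval w (reflect N p) = w ^ N * aeval w⁻¹ p := by
  let _ : Invertible (w⁻¹ : ℂ) := invertibleOfNonzero (inv_ne_zero hw)
  have h1 := eval₂_reflect_mul_pow (Int.castRingHom ℂ) (w⁻¹ : ℂ) N p hp
  rw [invOf_eq_inv, inv_inv] at h1
  have h2 : (w : ℂ) ^ N * w⁻¹ ^ N = 1 := by rw [← mul_pow, mul_inv_cancel₀ hw, one_pow]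
  have h3 : ∀ (x : ℂ) (p : ℤ[X]), aeval x p = eval₂ (Int.castRingHom ℂ) x p := fun x p => rfl
  rw [h3, h3, ← h1]
  linear_combination -(eval₂ (Int.castRingHom ℂ) w (reflect N p)) * h2

section final

variable {e c : ℤ} {r : ℕ} (he : 1 ≤ e) (hc : 2 ≤ c) (hr : 1 ≤ r)

include he hc hr in
lemma reflect_b_le {w : ℂ} (hw : ‖w‖ ≤ 1) :
    ‖aeval w (reflect (r + 1) (b e c r))‖ ≤ (1 + 4 / (c : ℝ) ^ r) * ‖aeval w (h e c r)‖ := by
  have hne : ∀ w : ℂ, ‖w‖ ≤ 1 → aeval w (h e c r) ≠ 0 := fun w hw => ne_zero_disc he hc hr hw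
  have hd : DiffContOnCl ℂ (fun w : ℂ => aeval w (reflect (r + 1) (b e c r)) /
      aeval w (h e c r)) (ball 0 1) := by
    have hcl : closure (ball (0 : ℂ) 1) = closedBall 0 1 := closure_ball _ one_ne_zero
    refine ⟨?_, ?_⟩
    · intro z hz
      refine ((Polynomial.differentiable_aeval _ z).div (Polynomial.differentiable_aeval _ z)
        (hne z ?_)).differentiableWithinAt
      exact (mem_ball_zero_iff.1 hz).le
    · rw [hcl]
      refine ContinuousOn.div (Polynomial.continuous_aeval _).continuousOn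
        (Polynomial.continuous_aeval _).continuousOn fun z hz => hne z ?_
      exact mem_closedBall_zero_iff.1 hz
  have h1 := Complex.norm_le_of_forall_mem_frontier_norm_le (isBounded_ball) hd
    (C := 1 + 4 / (c : ℝ) ^ r) (fun z hz => ?_) (z := w) ?_
  · rw [norm_div, div_le_iff₀ (norm_pos_iff.2 (hne w hw))] at h1
    exact h1
  · rw [frontier_ball _ one_ne_zero, mem_sphere_zero_iff_norm] at hz
    rw [norm_div, div_le_iff₀ (norm_pos_iff.2 (hne z hz.le))]
    have hz0 : z ≠ 0 := by rintro rfl; simp at hz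
    have hinv : z⁻¹ = conj z := by
      rw [Complex.inv_def, Complex.normSq_eq_norm_sq, hz]; simp
    rw [aeval_reflect (natDegree_b e c r) hz0, norm_mul, norm_pow, hz, one_pow, one_mul, hinv,
      aeval_conj_int, Complex.norm_conj]
    exact b_le he hc hr hz
  · rw [closure_ball _ one_ne_zero, mem_closedBall_zero_iff]
    exact hw

/-- the polynomials -/
noncomputable def P (e c : ℤ) (r m : ℕ) : ℤ[X] := X ^ m * reflect (r + 1) (h e c r) + b e c r

lemma coeff_P (e c : ℤ) (r : ℕ) {m : ℕ} (hm : 1 ≤ m) :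
    (P e c r m).coeff (m + (r + 1)) = (h e c r).coeff 0 := by
  unfold P
  rw [coeff_add, add_comm m, coeff_X_pow_mul, coeff_reflect, revAt_le le_rfl, Nat.sub_self,
    coeff_eq_zero_of_natDegree_lt (lt_of_le_of_lt (natDegree_b e c r) (by omega)), add_zero]

lemma natDegree_P_le (e c : ℤ) (r m : ℕ) : (P e c r m).natDegree ≤ m + (r + 1) := by
  unfold P
  refine (natDegree_add_le _ _).trans (max_le ?_ ((natDegree_b e c r).trans (by omega)))
  refine natDegree_mul_le.trans ?_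
  rw [natDegree_X_pow]
  have := natDegree_reflect_le (N := r + 1) (p := h e c r)
  have h2 := natDegree_h e c r
  have : (reflect (r + 1) (h e c r)).natDegree ≤ r + 1 := this.trans (max_le le_rfl h2)
  omega

lemma natDegree_P {e c : ℤ} {r m : ℕ} (hm : 1 ≤ m) (hq : (h e c r).coeff 0 ≠ 0) :
    (P e c r m).natDegree = m + (r + 1) := by
  refine natDegree_eq_of_le_of_coeff_ne_zero (natDegree_P_le e c r m) ?_
  rw [coeff_P e c r hm]
  exact hq

lemma leadingCoeff_P {e c : ℤ} {r m : ℕ} (hm : 1 ≤ m) (hq : (h e c r).coeff 0 ≠ 0) :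
    (P e c r m).leadingCoeff = (h e c r).coeff 0 := by
  rw [leadingCoeff, natDegree_P hm hq, coeff_P e c r hm]

include he hc hr in
/-- all roots are close to the unit disc -/
lemma root_le {m : ℕ} {z : ℂ} (hz : aeval z (P e c r m) = 0) (hz1 : 1 < ‖z‖) :
    ‖z‖ ^ m ≤ 1 + 4 / (c : ℝ) ^ r := by
  have hz0 : z ≠ 0 := by rintro rfl; simp at hz1; linarith
  have hw : ‖z⁻¹‖ ≤ 1 := by
    rw [norm_inv]
    exact inv_le_one_of_one_le₀ hz1.le
  have h1 := reflect_b_le he hc hr hw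
  rw [aeval_reflect (natDegree_b e c r) (inv_ne_zero hz0), inv_inv, norm_mul, norm_pow,
    norm_inv] at h1
  have h2 : aeval z (P e c r m) = z ^ m * (z ^ (r + 1) * aeval z⁻¹ (h e c r)) +
      aeval z (b e c r) := by
    unfold P
    rw [map_add, map_mul, map_pow, aeval_X, aeval_reflect (natDegree_h e c r) hz0]
  rw [hz] at h2
  have h3 : ‖aeval z (b e c r)‖ = ‖z‖ ^ m * (‖z‖ ^ (r + 1) * ‖aeval z⁻¹ (h e c r)‖) := by
    have h4 : aeval z (b e c r) = -(z ^ m * (z ^ (r + 1) * aeval z⁻¹ (h e c r))) := by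
      linear_combination -h2
    rw [h4, norm_neg, norm_mul, norm_mul, norm_pow, norm_pow]
  have hH : 0 < ‖aeval z⁻¹ (h e c r)‖ := norm_pos_iff.2 (ne_zero_disc he hc hr hw)
  have hzp : 0 < ‖z‖ := by linarith
  rw [h3] at h1
  have h5 : ‖z‖⁻¹ ^ (r + 1) * (‖z‖ ^ m * (‖z‖ ^ (r + 1) * ‖aeval z⁻¹ (h e c r)‖)) =
      ‖z‖ ^ m * ‖aeval z⁻¹ (h e c r)‖ := by
    have h6 : ‖z‖⁻¹ ^ (r + 1) * ‖z‖ ^ (r + 1) = 1 := by
      rw [← mul_pow, inv_mul_cancel₀ hzp.ne', one_pow]
    linear_combination (‖z‖ ^ m * ‖aeval z⁻¹ (h e c r)‖) * h6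
  rw [h5] at h1
  exact le_of_mul_le_mul_right h1 hH

include he hc hr in
lemma exists_big : ∃ z : ℂ, ‖z‖ = 1 ∧
    ‖aeval z (reflect (r + 1) (h e c r))‖ < ‖aeval z (b e c r)‖ := by
  have hc' : (2 : ℝ) ≤ c := by exact_mod_cast hc
  have hc0 : (0 : ℝ) < c := by linarith
  have he' : (1 : ℝ) ≤ e := by exact_mod_cast he
  set x : ℝ := 1 - 1 / (4 * c) with hx
  have hx0 : 0 < 1 / (4 * (c : ℝ)) := by positivity
  have hx1 : 1 / (4 * (c : ℝ)) ≤ 1 / 8 := one_div_le_one_div_of_le (by norm_num) (by linarith)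
  have hx2 : 0 ≤ 1 - x ^ 2 := by nlinarith
  set z : ℂ := ⟨x, Real.sqrt (1 - x ^ 2)⟩ with hz
  have hsq := Real.mul_self_sqrt hx2
  have hz1 : ‖z‖ = 1 := by
    have : ‖z‖ ^ 2 = 1 := by
      rw [Complex.sq_norm, Complex.normSq_apply, hz]
      simp only
      rw [hsq]; ring
    nlinarith [norm_nonneg z]
  have hy : ‖1 - z‖ ^ 2 = 1 / (2 * c) := by
    rw [Complex.sq_norm, Complex.normSq_apply, Complex.sub_re, Complex.sub_im, hz]
    simp only [Complex.one_re, Complex.one_im]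
    have : (1 - x) * (1 - x) + (0 - Real.sqrt (1 - x ^ 2)) * (0 - Real.sqrt (1 - x ^ 2)) =
        2 * (1 - x) := by
      linear_combination hsq
    rw [this, hx]
    field_simp
    ring
  refine ⟨z, hz1, ?_⟩
  have hz0 : z ≠ 0 := by rintro h0; rw [h0] at hz1; simp at hz1
  have hinv : z⁻¹ = conj z := by
    rw [Complex.inv_def, Complex.normSq_eq_norm_sq, hz1]; simp
  rw [aeval_reflect (natDegree_h e c r) hz0, norm_mul, norm_pow, hz1, one_pow, one_mul, hinv,
    aeval_conj_int, Complex.norm_conj]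
  have h1 := sq_b (e := e) (c := c) hr hz1
  rw [hy] at h1
  have h2 : (c : ℝ) * (1 / (2 * c)) - 1 = -(1 / 2) := by field_simp; norm_num
  rw [h2] at h1
  have h3 : 0 < (1 / (2 * (c : ℝ))) ^ r := by positivity
  refine lt_of_pow_lt_pow_left₀ 2 (norm_nonneg _) ?_
  rw [h1]
  nlinarith

end final

end Pool.Agent.KS6_20.SZ
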