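import Mathlib

/-!
# Integer polynomials whose real part on the unit circle is a prescribed function

`E s` is an integer polynomial with `2 Re E_s(w) = |1 - w| ^ (2 s)` on the unit circle.
-/

set_option autoImplicit false

open Polynomial Finset ComplexConjugate

namespace Pool.Agent.KS6_20.SZ

/-- the polynomial whose real part on the unit circle is `|1 - w| ^ (2 s) / 2` -/
noncomputable def E (s : ℕ) : ℤ[X] :=
  C (((2 * s - 1).choose s : ℕ) : ℤ) +
    ∑ j ∈ range s, C ((-1) ^ (j + 1) * (((2 * s).choose (s + (j + 1)) : ℕ) : ℤ)) * X ^ (j + 1)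

lemma aeval_E (s : ℕ) (w : ℂ) : aeval w (E s) = (((2 * s - 1).choose s : ℕ) : ℂ) +
    ∑ j ∈ range s, (-1) ^ (j + 1) * (((2 * s).choose (s + (j + 1)) : ℕ) : ℂ) * w ^ (j + 1) := by
  unfold E
  simp

lemma choose_half {s : ℕ} (hs : 1 ≤ s) : (2 * s).choose s = 2 * (2 * s - 1).choose s := by
  obtain ⟨t, rfl⟩ : ∃ t, s = t + 1 := ⟨s - 1, by omega⟩
  have e : 2 * (t + 1) = (2 * t + 1) + 1 := by ring
  have h2 : (2 * t + 1).choose t = (2 * t + 1).choose (t + 1) := by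
    rw [← Nat.choose_symm_of_eq_add (show 2 * t + 1 = (t + 1) + t by ring)]
  rw [e, Nat.choose_succ_succ', h2]
  simp only [Nat.add_sub_cancel]
  ring

/-- the symmetric Laurent polynomial -/
lemma E_sym {s : ℕ} (hs : 1 ≤ s) {w : ℂ} (hw : w ≠ 0) :
    w ^ s * (aeval w (E s) + aeval w⁻¹ (E s)) = (-1) ^ s * (1 - w) ^ (2 * s) := by
  have h1 : (1 - w) ^ (2 * s) = ∑ i ∈ range (2 * s + 1), (-w) ^ i * (((2 * s).choose i : ℕ) : ℂ) := by
    have := add_pow (-w) 1 (2 * s)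
    simp only [one_pow, mul_one] at this
    rw [← this]
    ring
  have h2 : ∑ i ∈ range (2 * s + 1), (-w) ^ i * (((2 * s).choose i : ℕ) : ℂ) =
      ∑ j ∈ range s, (-w) ^ (s - 1 - j) * (((2 * s).choose (s - 1 - j) : ℕ) : ℂ) +
      (∑ j ∈ range s, (-w) ^ (s + (j + 1)) * (((2 * s).choose (s + (j + 1)) : ℕ) : ℂ) +
        (-w) ^ s * (((2 * s).choose s : ℕ) : ℂ)) := by
    rw [show 2 * s + 1 = s + (s + 1) by ring, sum_range_add, sum_range_succ' _ s]
    congr 1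
    exact (sum_range_reflect (fun i => (-w) ^ i * (((2 * s).choose i : ℕ) : ℂ)) s).symm
  rw [h1, h2, aeval_E, aeval_E, choose_half hs]
  have hm1 : ∀ n : ℕ, ((-1 : ℂ)) ^ n * (-1) ^ n = 1 := fun n => by
    rw [← mul_pow]; norm_num
  have e1 : (-1 : ℂ) ^ s * ∑ j ∈ range s, (-w) ^ (s - 1 - j) * (((2 * s).choose (s - 1 - j) : ℕ) : ℂ)
      = w ^ s * ∑ j ∈ range s, (-1) ^ (j + 1) * (((2 * s).choose (s + (j + 1)) : ℕ) : ℂ) *
        w⁻¹ ^ (j + 1) := by
    rw [mul_sum, mul_sum]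
    refine sum_congr rfl fun j hj => ?_
    have hj' := mem_range.1 hj
    have hch : (2 * s).choose (s - 1 - j) = (2 * s).choose (s + (j + 1)) := by
      rw [← Nat.choose_symm_of_eq_add (show 2 * s = (s + (j + 1)) + (s - 1 - j) by omega)]
    rw [hch]
    obtain ⟨t, ht⟩ : ∃ t, s = t + (j + 1) := ⟨s - 1 - j, by omega⟩
    have ht2 : s - 1 - j = t := by omega
    rw [ht2]
    have hws : w ^ s * w⁻¹ ^ (j + 1) = w ^ t := by
      rw [ht, pow_add, mul_assoc, ← mul_pow, mul_inv_cancel₀ hw, one_pow, mul_one]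
    have hsg : (-1 : ℂ) ^ s * (-w) ^ t = (-1) ^ (j + 1) * w ^ t := by
      rw [ht, neg_pow w t, pow_add]
      linear_combination ((-1 : ℂ) ^ (j + 1) * w ^ t) * hm1 t
    linear_combination ((((2 * s).choose (s + (j + 1)) : ℕ) : ℂ)) * hsg -
      ((-1 : ℂ) ^ (j + 1) * (((2 * s).choose (s + (j + 1)) : ℕ) : ℂ)) * hws
  have e2 : (-1 : ℂ) ^ s * ∑ j ∈ range s, (-w) ^ (s + (j + 1)) *
      (((2 * s).choose (s + (j + 1)) : ℕ) : ℂ) = w ^ s * ∑ j ∈ range s, (-1) ^ (j + 1) *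
        (((2 * s).choose (s + (j + 1)) : ℕ) : ℂ) * w ^ (j + 1) := by
    rw [mul_sum, mul_sum]
    refine sum_congr rfl fun j hj => ?_
    rw [neg_pow w, pow_add, pow_add w]
    linear_combination ((-1 : ℂ) ^ (j + 1) * (((2 * s).choose (s + (j + 1)) : ℕ) : ℂ) *
      w ^ s * w ^ (j + 1)) * hm1 s
  have e3 : (-1 : ℂ) ^ s * ((-w) ^ s * ((2 * (2 * s - 1).choose s : ℕ) : ℂ)) =
      w ^ s * (2 * (((2 * s - 1).choose s : ℕ) : ℂ)) := by
    rw [neg_pow w]
    push_cast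
    linear_combination (w ^ s * (2 * (((2 * s - 1).choose s : ℕ) : ℂ))) * hm1 s
  rw [mul_add ((-1 : ℂ) ^ s), mul_add ((-1 : ℂ) ^ s), e1, e2, e3]
  ring

lemma aeval_conj_int (p : ℤ[X]) (w : ℂ) : aeval (conj w) p = conj (aeval w p) := by
  have := Polynomial.aeval_algHom_apply (starRingEnd ℂ).toIntAlgHom w p
  exact this

/-- the real part on the unit circle -/
lemma two_re_E {s : ℕ} (hs : 1 ≤ s) {w : ℂ} (hw : ‖w‖ = 1) :
    2 * (aeval w (E s)).re = (‖1 - w‖ ^ 2) ^ s := by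
  have hw0 : w ≠ 0 := by rintro rfl; simp at hw
  have hinv : w⁻¹ = conj w := by
    rw [Complex.inv_def, Complex.normSq_eq_norm_sq, hw]; simp
  have h1 := E_sym hs hw0
  rw [hinv, aeval_conj_int] at h1
  have h2 : aeval w (E s) + conj (aeval w (E s)) = ((2 * (aeval w (E s)).re : ℝ) : ℂ) :=
    Complex.add_conj _
  rw [h2] at h1
  have h3 : (((‖1 - w‖ ^ 2 : ℝ)) : ℂ) = (1 - w) * conj (1 - w) := by
    rw [Complex.mul_conj, Complex.normSq_eq_norm_sq]
  have h4 : w * (((‖1 - w‖ ^ 2 : ℝ)) : ℂ) = (-1) * (1 - w) ^ 2 := by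
    rw [h3, map_sub, map_one, ← hinv]
    field_simp
    ring
  have h5 : w ^ s * ((((‖1 - w‖ ^ 2) ^ s : ℝ)) : ℂ) = (-1) ^ s * (1 - w) ^ (2 * s) := by
    rw [pow_mul, ← mul_pow, ← h4, mul_pow]
    push_cast
    ring
  rw [← h5] at h1
  have h6 := mul_left_cancel₀ (pow_ne_zero s hw0) h1
  exact_mod_cast h6

lemma coeff_zero_E (s : ℕ) : (E s).coeff 0 = (((2 * s - 1).choose s : ℕ) : ℤ) := by
  unfold E
  rw [coeff_add, coeff_C_zero, finsetSum_coeff, sum_eq_zero, add_zero]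
  intro j _
  rw [coeff_C_mul, coeff_X_pow, if_neg (by omega), mul_zero]

lemma natDegree_E (s : ℕ) : (E s).natDegree ≤ s := by
  unfold E
  refine (natDegree_add_le _ _).trans (max_le ?_ ?_)
  · rw [natDegree_C]; exact Nat.zero_le _
  · refine natDegree_sum_le_of_forall_le _ _ fun j hj => ?_
    have := mem_range.1 hj
    exact (natDegree_C_mul_X_pow_le _ _).trans (by omega)

/-- the polynomial `h` -/
noncomputable def h (e c : ℤ) (r : ℕ) : ℤ[X] := C e + (C c * E (r + 1) - E r)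

lemma natDegree_h (e c : ℤ) (r : ℕ) : (h e c r).natDegree ≤ r + 1 := by
  unfold h
  refine (natDegree_add_le _ _).trans (max_le ?_ ((natDegree_sub_le _ _).trans (max_le ?_ ?_)))
  · rw [natDegree_C]; exact Nat.zero_le _
  · exact (natDegree_C_mul_le _ _).trans (natDegree_E _)
  · exact (natDegree_E _).trans (by omega)

lemma coeff_zero_h (e c : ℤ) (r : ℕ) : (h e c r).coeff 0 =
    e + (c * (((2 * (r + 1) - 1).choose (r + 1) : ℕ) : ℤ) - (((2 * r - 1).choose r : ℕ) : ℤ)) := by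
  unfold h
  rw [coeff_add, coeff_C_zero, coeff_sub, coeff_C_mul, coeff_zero_E, coeff_zero_E]

lemma two_re_h (e c : ℤ) {r : ℕ} (hr : 1 ≤ r) {w : ℂ} (hw : ‖w‖ = 1) :
    2 * (aeval w (h e c r)).re =
      2 * e + (‖1 - w‖ ^ 2) ^ r * (c * ‖1 - w‖ ^ 2 - 1) := by
  have h1 := two_re_E (s := r + 1) (by omega) hw
  have h2 := two_re_E hr hw
  have e1 : (aeval w (h e c r)).re = e + (c * (aeval w (E (r + 1))).re - (aeval w (E r)).re) := by
    unfold h
    simp
  rw [e1]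
  linear_combination (c : ℝ) * h1 - h2

end Pool.Agent.KS6_20.SZ
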